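import Pool.Agent.Y957.MC.Spec2
import Pool.Agent.Y405.MC.Flw2

/-!
Project MC, step FLW2C: the error term at the times of a flow, over boxes.
-/

set_option autoImplicit false

namespace Pool.Agent.Y405.MC

open MeasureTheory Filter Finset
open Pool.Agent.Y957.MC

universe u

theorem flw2c (h : S_SGLC.{u}) (h2 : S_FLWB.{u}) : S_FLW2C.{u} := by
  intro k c i hc
  obtain ⟨K, hK, hS⟩ := h k c i hc
  refine ⟨fun ε => K (ε / 2), fun ε => hK _, ?_⟩
  intro X _ μ _ τ e hf he hb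
  have hm : Measurable (fun q : X × ℝ => e (τ q.2 q.1)) :=
    he.comp (hf.meas.comp (measurable_snd.prodMk measurable_fst))
  have h3 := hS X μ (fun x v => e (τ v x)) (fun r => ∫ x, e x * e (τ r x) ∂μ) hm
    (fun x v => hb _) (fun v w _ _ => cov hf he v w)
  have h4 := h2 X μ τ e hf he ⟨1, fun x => by
    rw [abs_le]
    exact ⟨by linarith [(hb x).1], (hb x).2⟩⟩
  have h5 : ∀ᵐ x ∂μ, 0 ≤ (μ[e | flowInv τ]) x :=
    condExp_nonneg (ae_of_all _ fun x => (hb x).1)
  filter_upwards [h3, h4, h5] with x h6 h7 h8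
  filter_upwards [h6] with a h9 ε hε
  have hK2 := hK (ε / 2)
  have hη : 0 < ε / (2 * K (ε / 2)) := by positivity
  obtain ⟨N₀, h10⟩ := h9 (ε / 2) ((μ[e | flowInv τ]) x + ε / (2 * K (ε / 2))) (half_pos hε) (by
    have h11 := h7.eventually (gt_mem_nhds (lt_add_of_pos_right _ hη))
    filter_upwards [h11] with V hV
    exact hV.le)
  refine ⟨N₀, fun M hM1 hM2 => (h10 M hM1 hM2).trans (le_of_eq ?_)⟩
  have : K (ε / 2) ≠ 0 := hK2.ne'
  field_simp
  ring

end Pool.Agent.Y405.MC
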