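import Pool.Agent.Y957.MC.Spec2
import Pool.Agent.Y312.MC.Flw3

/-!
MC2-FLW3C (helper405 for helper957, MP_f720ae_an): averages over boxes for one flow; adapted from Y312/MC/Flw3.
-/

set_option autoImplicit false

namespace Pool.Agent.Y405.MC3

set_option linter.unusedSectionVars false

open MeasureTheory Filter Finset Pool.Agent.Y957.MC Pool.Agent.Y312.MC

universe u

theorem flwp (h1 : S_FLW1C.{u}) (h2 : S_FLW2C.{u}) (h3 : S_FLWB.{u}) : S_FLWP.{u} := by
  intro k c i hci X mX μ _ τ g hF hg hgb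
  obtain ⟨C', hC'⟩ := hgb
  set C : ℝ := |C'| + 1 with hCdef
  have hC0 : 0 < C := by positivity
  have hC : ∀ x, |g x| ≤ C := fun x => (hC' x).trans ((le_abs_self _).trans (by linarith))
  obtain ⟨K, hK, hE⟩ := h2 k c i hci
  have hm := flowInv_le (mX := mX) τ
  -- the truncated conditional expectation
  set gb : X → ℝ := fun x => max (-C) (min C ((μ[g | flowInv τ]) x)) with hgb
  have hgbm : Measurable[flowInv τ] gb := by
    have : Measurable[flowInv τ] (μ[g | flowInv τ]) := stronglyMeasurable_condExp.measurable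
    exact measurable_const.max (measurable_const.min this)
  have hgbM : Measurable gb := hgbm.mono hm le_rfl
  have hgbb : ∀ x, |gb x| ≤ C := fun x => abs_le.2 ⟨le_max_left _ _, max_le (by linarith) (min_le_left _ _)⟩
  have hgbe : ∀ᵐ x ∂μ, gb x = (μ[g | flowInv τ]) x := by
    have : ∀ᵐ x ∂μ, |(μ[g | flowInv τ]) x| ≤ C := by
      have := ae_bdd_abs_condExp_of_ae_bdd_abs (m := flowInv τ) (μ := μ) (f := g) (R := C)
        (ae_of_all _ fun x => hC x)
      exact this
    filter_upwards [this] with x hx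
    rw [abs_le] at hx
    simp only [hgb]
    rw [min_eq_right hx.2, max_eq_right hx.1]
  have hpos : ∀ j : ℕ, 0 < 1 / ((j : ℝ) + 1) := fun j => by positivity
  set hs : ℕ → X → ℝ := fun j => smo τ g (1 / ((j : ℝ) + 1)) with hhs
  have hsm : ∀ j, Measurable (hs j) := fun j => smo_meas hF hg (hpos j)
  have hsb : ∀ j x, |hs j x| ≤ C := fun j x => smo_bdd hC (hpos j) x
  -- choice of `S j`
  have hS : ∀ j : ℕ, ∃ V : ℝ, 0 < V ∧ ∫ x, |smo τ (hs j) V x - gb x| ∂μ < 1 / ((j : ℝ) + 1) := by
    intro j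
    have ht := h3 X μ τ (hs j) hF (hsm j) ⟨C, hsb j⟩
    have hlim : Tendsto (fun n : ℕ => ∫ x, |smo τ (hs j) ((n : ℝ) + 1) x - gb x| ∂μ) atTop (nhds (∫ x : X, (0 : ℝ) ∂μ)) := by
      refine tendsto_integral_of_dominated_convergence (fun _ => 2 * C) ?_ (integrable_const _) ?_ ?_
      · intro n
        exact ((smo_meas hF (hsm j) (by positivity)).sub hgbM).abs.aestronglyMeasurable
      · intro n
        refine ae_of_all _ fun x => ?_
        have e1 := smo_bdd (τ := τ) (hsb j) (by positivity : 0 < (n : ℝ) + 1) x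
        have e2 := hgbb x
        rw [Real.norm_eq_abs, abs_abs]
        exact (abs_sub _ _).trans (by linarith)
      · filter_upwards [ht, hgbe, condExp_smo hF hg hC (hpos j)] with x hx hx2 hx3
        have e1 : Tendsto (fun n : ℕ => (n : ℝ) + 1) atTop atTop :=
          tendsto_atTop_add_const_right _ _ tendsto_natCast_atTop_atTop
        have e2 := (hx.comp e1).sub (tendsto_const_nhds (x := gb x))
        rw [hx2, hx3, sub_self] at e2
        simpa [Function.comp_def, hx2, hx3] using e2.abs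
    rw [integral_zero] at hlim
    obtain ⟨n, hn⟩ := (hlim.eventually (gt_mem_nhds (hpos j))).exists
    exact ⟨(n : ℝ) + 1, by positivity, hn⟩
  choose S hS0 hS1 using hS
  set E : ℕ → X → ℝ := fun j x => |g x - hs j x| + |smo τ (hs j) (S j) x - gb x| with hEdef
  have hEm : ∀ j, Measurable (E j) := fun j =>
    (hg.sub (hsm j)).abs.add (((smo_meas hF (hsm j) (hS0 j)).sub hgbM).abs)
  have hEb : ∀ j x, 0 ≤ E j x ∧ E j x ≤ 4 * C := by
    intro j x
    refine ⟨by positivity, ?_⟩
    have e1 := hC x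
    have e2 := hsb j x
    have e3 := smo_bdd (τ := τ) (hsb j) (hS0 j) x
    have e4 := hgbb x
    have e5 := abs_sub (g x) (hs j x)
    have e6 := abs_sub (smo τ (hs j) (S j) x) (gb x)
    simp only [hEdef]
    linarith
  have hEint : Tendsto (fun j => ∫ x, E j x ∂μ) atTop (nhds 0) := by
    have e0 : ∀ j, ∫ x, E j x ∂μ = (∫ x, |g x - hs j x| ∂μ) + ∫ x, |smo τ (hs j) (S j) x - gb x| ∂μ := by
      intro j
      refine integral_add ?_ ?_
      · refine int_bdd (hg.sub (hsm j)).abs (C := 2 * C) fun x => ?_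
        rw [abs_abs]
        exact (abs_sub _ _).trans (by linarith [hC x, hsb j x])
      · refine int_bdd (((smo_meas hF (hsm j) (hS0 j)).sub hgbM).abs) (C := 2 * C) fun x => ?_
        rw [abs_abs]
        exact (abs_sub _ _).trans (by linarith [smo_bdd (τ := τ) (hsb j) (hS0 j) x, hgbb x])
    simp only [e0]
    have e1 := smo_L1 hF hg hC (μ := μ)
    have e2 : Tendsto (fun j : ℕ => ∫ x, |smo τ (hs j) (S j) x - gb x| ∂μ) atTop (nhds 0) :=
      squeeze_zero (fun j => integral_nonneg fun x => abs_nonneg _) (fun j => (hS1 j).le)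
        tendsto_one_div_add_atTop_nhds_zero_nat
    have e3 := e1.add e2
    rw [add_zero] at e3
    exact e3
  -- normalized errors
  set D : ℝ := 4 * C with hD
  have hD0 : 0 < D := by positivity
  set e : ℕ → X → ℝ := fun j x => E j x / D with hedef
  have hem : ∀ j, Measurable (e j) := fun j => (hEm j).div_const _
  have heb : ∀ j x, 0 ≤ e j x ∧ e j x ≤ 1 := fun j x =>
    ⟨div_nonneg (hEb j x).1 hD0.le, by rw [hedef]; simp only; rw [div_le_one hD0]; exact (hEb j x).2⟩
  have heint : Tendsto (fun j => ∫ x, e j x ∂μ) atTop (nhds 0) := by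
    simp only [hedef, integral_div]
    simpa using hEint.div_const D
  -- the conditional expectations of the errors have infimum zero
  have hinf : ∀ᵐ x ∂μ, ∀ q : ℕ, ∃ j, (μ[e j | flowInv τ]) x < 1 / ((q : ℝ) + 1) := by
    rw [ae_all_iff]
    intro q
    have hq : 0 < 1 / ((q : ℝ) + 1) := hpos q
    have hmq : ∀ j, 1 / ((q : ℝ) + 1) * μ.real {x | 1 / ((q : ℝ) + 1) ≤ (μ[e j | flowInv τ]) x} ≤ ∫ x, e j x ∂μ := by
      intro j
      have e1 : 0 ≤ᵐ[μ] μ[e j | flowInv τ] := condExp_nonneg (ae_of_all _ fun x => (heb j x).1)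
      have e2 := mul_meas_ge_le_integral_of_nonneg e1 integrable_condExp (1 / ((q : ℝ) + 1))
      rwa [integral_condExp hm] at e2
    have hbad : μ.real {x | ¬ ∃ j, (μ[e j | flowInv τ]) x < 1 / ((q : ℝ) + 1)} ≤ 0 := by
      have e3 : ∀ j, 1 / ((q : ℝ) + 1) * μ.real {x | ¬ ∃ j, (μ[e j | flowInv τ]) x < 1 / ((q : ℝ) + 1)} ≤
          ∫ x, e j x ∂μ := by
        intro j
        refine le_trans (mul_le_mul_of_nonneg_left ?_ hq.le) (hmq j)
        refine measureReal_mono ?_ (measure_ne_top _ _)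
        intro x hx
        simp only [Set.mem_ofPred_eq, not_exists, not_lt] at hx ⊢
        exact hx j
      have e4 := ge_of_tendsto' heint e3
      nlinarith
    have : μ {x | ¬ ∃ j, (μ[e j | flowInv τ]) x < 1 / ((q : ℝ) + 1)} = 0 := by
      have e5 := le_antisymm hbad measureReal_nonneg
      rwa [measureReal_eq_zero_iff] at e5
    exact this
  have hco : ∀ᵐ x ∂μ, ∀ j : ℕ, ∀ B : (Fin k → ℕ) → ℂ, (∀ m, ‖B m‖ ≤ 1) →
      ∀ᵐ a : ℝ ∂(volume.restrict (Set.Ioi (0 : ℝ))),
      TZ i (fun M => bavg M (fun m => if 0 < lin c m then B m *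
        (((hs j (τ (a * lin c m) x) - smo τ (hs j) (S j) (τ (a * lin c m) x) : ℝ)) : ℂ) else 0)) := by
    rw [ae_all_iff]
    intro j
    exact h1 k c i hci X μ τ g hF hg ⟨C, hC⟩ (1 / ((j : ℝ) + 1)) (S j) (hpos j) (hS0 j)
  have her : ∀ᵐ x ∂μ, ∀ j : ℕ, ∀ᵐ a : ℝ ∂(volume.restrict (Set.Ioi (0 : ℝ))), ∀ ε : ℝ, 0 < ε →
      ∃ N₀ : ℕ, ∀ M : Fin k → ℕ, (∀ l, N₀ ≤ M l) → (∀ l, M l ≤ M i) →
        (1 / ((∏ l, M l : ℕ) : ℝ)) * ∑ m ∈ box M, (if 0 < lin c m then e j (τ (a * lin c m) x) else 0) ≤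
          ε + K ε * (μ[e j | flowInv τ]) x := by
    rw [ae_all_iff]
    intro j
    exact hE X μ τ (e j) hF (hem j) (heb j)
  filter_upwards [hgbe, hinf, hco, her] with x hx1 hx2 hx3 hx4 B hB
  rw [← hx1]
  have hx3' := ae_all_iff.2 fun j => hx3 j B hB
  have hx4' := ae_all_iff.2 hx4
  filter_upwards [hx3', hx4'] with a ha3 ha4
  intro ε' hε'
  set ε : ℝ := ε' / (4 * D) with hε
  have hε0 : 0 < ε := by positivity
  obtain ⟨q, hq⟩ := exists_nat_one_div_lt (div_pos hε0 (hK ε))
  obtain ⟨j, hj⟩ := hx2 q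
  have hj' : K ε * (μ[e j | flowInv τ]) x ≤ ε := by
    have : (μ[e j | flowInv τ]) x < ε / K ε := hj.trans hq
    rw [lt_div_iff₀ (hK ε)] at this
    linarith
  obtain ⟨N1, hN1⟩ := ha3 j (ε' / 4) (by positivity)
  obtain ⟨N2, hN2⟩ := ha4 j ε hε0
  refine ⟨max N1 N2, fun M hM hMi => ?_⟩
  replace hN1 := hN1 M (fun l => (le_max_left _ _).trans (hM l)) hMi
  replace hN2 := hN2 M (fun l => (le_max_right _ _).trans (hM l)) hMi
  have hsplit : bavg M (fun m => if 0 < lin c m then B m *
        (((g (τ (a * lin c m) x) - gb x : ℝ)) : ℂ) else 0) =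
      bavg M (fun m => if 0 < lin c m then B m *
        (((hs j (τ (a * lin c m) x) - smo τ (hs j) (S j) (τ (a * lin c m) x) : ℝ)) : ℂ) else 0) +
      bavg M (fun m => if 0 < lin c m then B m *
        ((((g (τ (a * lin c m) x) - hs j (τ (a * lin c m) x)) +
          (smo τ (hs j) (S j) (τ (a * lin c m) x) - gb (τ (a * lin c m) x)) : ℝ)) : ℂ) else 0) := by
    unfold bavg
    rw [← mul_add, ← Finset.sum_add_distrib]
    congr 1
    refine Finset.sum_congr rfl fun m _ => ?_
    beta_reduce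
    split_ifs with hm0
    · rw [inv_of_meas hgbm]
      push_cast
      ring
    · rw [add_zero]
  simp only
  rw [hsplit]
  refine (norm_add_le _ _).trans ?_
  have hsec : ‖bavg M (fun m => if 0 < lin c m then B m *
        ((((g (τ (a * lin c m) x) - hs j (τ (a * lin c m) x)) +
          (smo τ (hs j) (S j) (τ (a * lin c m) x) - gb (τ (a * lin c m) x)) : ℝ)) : ℂ) else 0)‖ ≤
      (1 / ((∏ l, M l : ℕ) : ℝ)) * ∑ m ∈ box M, D * (if 0 < lin c m then e j (τ (a * lin c m) x) else 0) := by
    unfold bavg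
    rw [norm_mul]
    have : ‖(1 / ((∏ l, M l : ℕ) : ℂ))‖ = 1 / ((∏ l, M l : ℕ) : ℝ) := by
      rw [norm_div, norm_one, Complex.norm_natCast]
    rw [this]
    refine mul_le_mul_of_nonneg_left ?_ (by positivity)
    refine (norm_sum_le _ _).trans (Finset.sum_le_sum fun m _ => ?_)
    split_ifs with hm0
    · rw [norm_mul, Complex.norm_real]
      have e1 : D * e j (τ (a * lin c m) x) = E j (τ (a * lin c m) x) := by
        simp only [hedef]; field_simp
      rw [e1]
      refine (mul_le_of_le_one_left (norm_nonneg _) (hB m)).trans ?_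
      exact abs_add_le _ _
    · simp
  rw [← Finset.mul_sum, mul_left_comm] at hsec
  have hfin : D * (1 / ((∏ l, M l : ℕ) : ℝ) *
      ∑ m ∈ box M, (if 0 < lin c m then e j (τ (a * lin c m) x) else 0)) ≤ D * (2 * ε) := by
    refine mul_le_mul_of_nonneg_left ?_ hD0.le
    linarith
  have : D * (2 * ε) = ε' / 2 := by rw [hε]; field_simp; norm_num
  linarith

/-! ## Both signs -/

theorem TZ_add {k : ℕ} {i : Fin k} {h1 h2 : (Fin k → ℕ) → ℂ} (H1 : TZ i h1) (H2 : TZ i h2) :
    TZ i (fun M => h1 M + h2 M) := by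
  intro ε hε
  obtain ⟨N1, hN1⟩ := H1 (ε / 2) (by positivity)
  obtain ⟨N2, hN2⟩ := H2 (ε / 2) (by positivity)
  refine ⟨max N1 N2, fun M hM hMi => ?_⟩
  have e1 := hN1 M (fun l => (le_max_left _ _).trans (hM l)) hMi
  have e2 := hN2 M (fun l => (le_max_right _ _).trans (hM l)) hMi
  exact (norm_add_le _ _).trans (by linarith)

theorem bavg_add {k : ℕ} (M : Fin k → ℕ) (h1 h2 : (Fin k → ℕ) → ℂ) :
    bavg M (fun m => h1 m + h2 m) = bavg M h1 + bavg M h2 := by
  unfold bavg
  rw [Finset.sum_add_distrib, mul_add]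

theorem card_box {k : ℕ} (M : Fin k → ℕ) : #(box M) = ∏ l, M l := by
  unfold Pool.Agent.Y957.MC.box
  rw [Fintype.card_piFinset]
  simp

theorem lin_neg {k : ℕ} (c : Fin k → ℝ) (m : Fin k → ℕ) : lin (-c) m = -lin c m := by
  unfold lin
  simp [Finset.sum_neg_distrib]

/-- few points of the box are zeros of the linear form -/
theorem card_zero {k : ℕ} (c : Fin k → ℝ) (i : Fin k) (hc : c i ≠ 0) (M : Fin k → ℕ) :
    #((box M).filter fun m => lin c m = 0) * M i ≤ ∏ l, M l := by
  classical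
  have h1 : #((box M).filter fun m => lin c m = 0) ≤ #(box (Function.update M i 1)) := by
    refine Finset.card_le_card_of_injOn (fun m => Function.update m i 1) ?_ ?_
    · intro m hm
      have hm1 := (Finset.mem_filter.1 hm).1
      unfold Pool.Agent.Y957.MC.box at hm1 ⊢
      rw [Fintype.mem_piFinset] at hm1
      simp only [Finset.mem_coe]
      rw [Fintype.mem_piFinset]
      intro l
      by_cases hl : l = i
      · subst hl
        simp
      · rw [Function.update_of_ne hl, Function.update_of_ne hl]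
        exact hm1 l
    · intro m hm m' hm' heq
      have e1 := (Finset.mem_filter.1 hm).2
      have e2 := (Finset.mem_filter.1 hm').2
      have e3 : ∀ l, l ≠ i → m l = m' l := by
        intro l hl
        have := congrFun heq l
        simp only [] at this
        rwa [Function.update_of_ne hl, Function.update_of_ne hl] at this
      have e4 : lin c m - lin c m' = c i * ((m i : ℝ) - m' i) := by
        unfold lin
        rw [← Finset.sum_sub_distrib, Finset.sum_eq_single i]
        · ring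
        · intro l _ hl
          rw [e3 l hl, sub_self]
        · simp
      rw [e1, e2, sub_zero] at e4
      have e5 : (m i : ℝ) - m' i = 0 := by
        rcases mul_eq_zero.1 e4.symm with h | h
        · exact absurd h hc
        · exact h
      funext l
      by_cases hl : l = i
      · subst hl
        have : (m l : ℝ) = m' l := by linarith
        exact_mod_cast this
      · exact e3 l hl
  rw [card_box, Finset.prod_update_of_mem (Finset.mem_univ i), one_mul] at h1
  calc _ ≤ (∏ l ∈ Finset.univ \ {i}, M l) * M i := Nat.mul_le_mul_right _ h1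
    _ = ∏ l, M l := by
      rw [mul_comm, ← Finset.prod_update_of_mem (Finset.mem_univ i) M (M i), Function.update_eq_self]

/-- the zeros of the form contribute nothing -/
theorem TZ_zero {k : ℕ} (c : Fin k → ℝ) (i : Fin k) (hc : c i ≠ 0) (H : (Fin k → ℕ) → ℂ) (D : ℝ)
    (hD : ∀ m, ‖H m‖ ≤ D) : TZ i (fun M => bavg M (fun m => if lin c m = 0 then H m else 0)) := by
  intro ε hε
  have hD0 : 0 ≤ D := (norm_nonneg _).trans (hD 0)
  obtain ⟨N, hN⟩ := exists_nat_gt (D / ε)
  refine ⟨max N 1, fun M hM _ => ?_⟩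
  have hM1 : ∀ l, 1 ≤ M l := fun l => (le_max_right _ _).trans (hM l)
  have hMi : D / ε < M i := hN.trans_le (by exact_mod_cast (le_max_left _ _).trans (hM i))
  have hMi0 : (0 : ℝ) < M i := by exact_mod_cast hM1 i
  have hP : (0 : ℝ) < ((∏ l, M l : ℕ) : ℝ) := by
    exact_mod_cast Finset.prod_pos fun l _ => hM1 l
  have h1 := card_zero c i hc M
  have h1' : (#((box M).filter fun m => lin c m = 0) : ℝ) * M i ≤ ((∏ l, M l : ℕ) : ℝ) := by
    exact_mod_cast h1
  have h2 : ‖bavg M (fun m => if lin c m = 0 then H m else 0)‖ ≤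
      (1 / ((∏ l, M l : ℕ) : ℝ)) * (#((box M).filter fun m => lin c m = 0) * D) := by
    unfold bavg
    rw [norm_mul, norm_div, norm_one, Complex.norm_natCast]
    refine mul_le_mul_of_nonneg_left ?_ (by positivity)
    rw [← Finset.sum_filter]
    refine (norm_sum_le _ _).trans ?_
    rw [← nsmul_eq_mul]
    exact Finset.sum_le_card_nsmul _ _ _ fun m _ => hD m
  refine h2.trans ?_
  rw [div_lt_iff₀ hε] at hMi
  rw [one_div, inv_mul_le_iff₀ hP]
  have h3 : (#((box M).filter fun m => lin c m = 0) : ℝ) * D ≤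
      (#((box M).filter fun m => lin c m = 0) : ℝ) * (M i * ε) := by
    refine mul_le_mul_of_nonneg_left hMi.le (by positivity)
  calc _ ≤ (#((box M).filter fun m => lin c m = 0) : ℝ) * (M i * ε) := h3
    _ = (#((box M).filter fun m => lin c m = 0) : ℝ) * M i * ε := by ring
    _ ≤ _ := mul_le_mul_of_nonneg_right h1' hε.le

theorem split3 {k : ℕ} (c : Fin k → ℝ) (i : Fin k) (hc : c i ≠ 0) (H : (Fin k → ℕ) → ℂ) (D : ℝ)
    (hD : ∀ m, ‖H m‖ ≤ D) (h1 : TZ i (fun M => bavg M (fun m => if 0 < lin c m then H m else 0)))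
    (h2 : TZ i (fun M => bavg M (fun m => if 0 < lin (-c) m then H m else 0))) :
    TZ i (fun M => bavg M H) := by
  have h3 := TZ_add (TZ_add h1 h2) (TZ_zero c i hc H D hD)
  have h4 : (fun M => bavg M H) = fun M => (bavg M (fun m => if 0 < lin c m then H m else 0) +
      bavg M (fun m => if 0 < lin (-c) m then H m else 0)) +
      bavg M (fun m => if lin c m = 0 then H m else 0) := by
    funext M
    rw [← bavg_add, ← bavg_add]
    congr 1
    funext m
    rw [lin_neg]
    rcases lt_trichotomy (lin c m) 0 with h | h | h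
    · rw [if_neg (by linarith), if_pos (by linarith), if_neg h.ne]
      simp
    · rw [if_neg (by linarith), if_neg (by linarith), if_pos h]
      simp
    · rw [if_pos h, if_neg (by linarith), if_neg h.ne']
      simp
  rw [h4]
  exact h3

theorem ae_pm {Q : ℝ → Prop} (h1 : ∀ᵐ a : ℝ ∂(volume.restrict (Set.Ioi (0 : ℝ))), Q a)
    (h2 : ∀ᵐ a : ℝ ∂(volume.restrict (Set.Ioi (0 : ℝ))), Q (-a)) : ∀ᵐ a : ℝ, Q a := by
  rw [ae_restrict_iff' measurableSet_Ioi] at h1 h2
  have h3 : ∀ᵐ a : ℝ, -a ∈ Set.Ioi (0 : ℝ) → Q (- -a) :=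
    (Measure.measurePreserving_neg (volume : Measure ℝ)).quasiMeasurePreserving.ae h2
  have h0 : ∀ᵐ a : ℝ, a ≠ 0 := by
    rw [ae_iff]; simp
  filter_upwards [h1, h3, h0] with a ha1 ha3 ha0
  rcases lt_or_gt_of_ne ha0 with h | h
  · have := ha3 (by simpa using h)
    rwa [neg_neg] at this
  · exact ha1 h

theorem flowInv_rev {X : Type u} [MeasurableSpace X] (τ : ℝ → X → X) :
    flowInv (fun t => τ (-t)) = flowInv τ := by
  unfold flowInv
  exact (Equiv.neg ℝ).iInf_comp (g := fun t => MeasurableSpace.invariants (τ t))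

theorem isFlow_rev {X : Type u} [MeasurableSpace X] {μ : Measure X} {τ : ℝ → X → X} (h : IsFlow μ τ) :
    IsFlow μ (fun t => τ (-t)) := by
  refine ⟨?_, fun x => by simp [h.zero], fun s t x => ?_, fun t => h.mp (-t)⟩
  · exact h.meas.comp ((measurable_neg.comp measurable_fst).prodMk measurable_snd)
  · simp only [neg_add]
    exact h.add _ _ _

theorem flwc (h : S_FLWP.{u}) : S_FLWC.{u} := by
  intro k c i hc X mX μ _ τ g hF hg hgb
  have hc' : (-c) i ≠ 0 := by simpa using hc
  have P1 := h k c i hc X μ τ g hF hg hgb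
  have P2 := h k c i hc X μ (fun t => τ (-t)) g (isFlow_rev hF) hg hgb
  have N1 := h k (-c) i hc' X μ τ g hF hg hgb
  have N2 := h k (-c) i hc' X μ (fun t => τ (-t)) g (isFlow_rev hF) hg hgb
  rw [flowInv_rev] at P2 N2
  obtain ⟨C, hC⟩ := hgb
  filter_upwards [P1, P2, N1, N2] with x p1 p2 n1 n2 B hB
  have hb : ∀ (a : ℝ) (m : Fin k → ℕ),
      ‖B m * (((g (τ (a * lin c m) x) - (μ[g | flowInv τ]) x : ℝ)) : ℂ)‖ ≤ C + |(μ[g | flowInv τ]) x| := by
    intro a m
    rw [norm_mul, Complex.norm_real]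
    refine (mul_le_of_le_one_left (norm_nonneg _) (hB m)).trans ?_
    exact (abs_sub _ _).trans (by linarith [hC (τ (a * lin c m) x)])
  refine ae_pm ?_ ?_
  · filter_upwards [p1 B hB, n2 B hB] with a ha1 ha2
    refine split3 c i hc _ _ (hb a) ha1 ?_
    have e : ∀ m : Fin k → ℕ, -(a * lin (-c) m) = a * lin c m := fun m => by rw [lin_neg]; ring
    simpa only [e] using ha2
  · filter_upwards [p2 B hB, n1 B hB] with a ha1 ha2
    refine split3 c i hc _ _ (hb (-a)) ?_ ?_
    · have e : ∀ m : Fin k → ℕ, -(a * lin c m) = -a * lin c m := fun m => by ring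
      simpa only [e] using ha1
    · have e : ∀ m : Fin k → ℕ, a * lin (-c) m = -a * lin c m := fun m => by rw [lin_neg]; ring
      simpa only [e] using ha2

end Pool.Agent.Y405.MC3
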